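import Pool.Agent.H815.QC.Stm3

/-!
Part CNT of helper815's project QC (MP_c91b70_al): the counting contradiction.
-/

set_option autoImplicit false

namespace Pool.Agent.H921.QC

open Pool.Agent.H815.QC

/-- twice the negative Euler characteristic -/
noncomputable def phi {K : Type} [Group K] (L : Subgroup K) : ℤ := 2 * ((b1 L : ℤ) - 1)

theorem phi_conj (hC2 : S_C2) {K : Type} [Group K] (k : K) (L : Subgroup K) :
    phi (L.map (MulAut.conj k).toMonoidHom) = phi L := by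
  unfold phi
  rw [hC2.1 K k L]

theorem conj_equiv {Q F : Type} [Group Q] [Group F] (R : Subgroup Q) (y : Q)
    (h : Nonempty (R ≃* F)) : Nonempty (R.map (MulAut.conj y).toMonoidHom ≃* F) := by
  obtain ⟨e⟩ := h
  exact ⟨(R.equivMapOfInjective (MulAut.conj y).toMonoidHom (MulAut.conj y).injective).symm.trans e⟩

theorem phi_cox (hC1 : S_C1) (hD2 : S_D2) {K Q : Type} [Group K] [Group Q] (ι : K →* Q)
    (hK : TFr K) (hι : Function.Injective ι) (hi : ι.range.index ≠ 0) (n : ℕ) (R : Subgroup Q)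
    (hR : Nonempty (R ≃* Monoid.CoprodI fun _ : Fin n => Multiplicative (ZMod 2))) :
    phi (R.comap ι) = (ι.range.relIndex R : ℤ) * ((n : ℤ) - 2) := by
  obtain ⟨M, hM0, hM, hb, ht⟩ := hC1 K Q _ ι R hR hι hi
  have h1 := hD2 n M hM0 (ht hK)
  unfold phi
  rw [hb, h1, hM]

theorem phi_free (hC1 : S_C1) (hD1 : S_D1) {K Q : Type} [Group K] [Group Q] (ι : K →* Q)
    (hι : Function.Injective ι) (hi : ι.range.index ≠ 0) (n : ℕ) (R : Subgroup Q)
    (hR : Nonempty (R ≃* FreeGroup (Fin n))) :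
    phi (R.comap ι) = 2 * ((ι.range.relIndex R : ℤ) * ((n : ℤ) - 1)) := by
  obtain ⟨M, hM0, hM, hb, _⟩ := hC1 K Q _ ι R hR hι hi
  have h1 := hD1 n M hM0
  unfold phi
  rw [hb, h1, hM]

theorem CNT_proof (hC1 : S_C1) (hC2 : S_C2) (hD1 : S_D1) (hD2 : S_D2) (hD5 : S_D5) :
    Pool.Agent.H815.QC.S_CNT := by
  intro K Q1 Q2 J1 J2 _ _ _ _ _ ι1 ι2 R1 R2 s hK hι1 hi1 hι2 hi2 hJ1 hR1 hQ1 hR2 hQ2 hp1 hp2 hP hs
  -- the two mass formulas
  have h1 := hD5 K Q1 J1 ι1 R1 phi (fun _ => 1) hι1 hi1 (phi_conj hC2)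
    (fun j y => by
      have h := phi_cox hC1 hD2 ι1 hK hι1 hi1 3 ((R1 j).map (MulAut.conj y).toMonoidHom)
        (conj_equiv (R1 j) y (hR1 j))
      show phi (((R1 j).map (MulAut.conj y).toMonoidHom).comap ι1) = _
      rw [h]
      push_cast
      ring) hp1
  have h2 := hD5 K Q2 J2 ι2 R2 phi (fun j => 2 * ((s j : ℤ) - 1)) hι2 hi2 (phi_conj hC2)
    (fun j y => by
      have h := phi_free hC1 hD1 ι2 hι2 hi2 (s j) ((R2 j).map (MulAut.conj y).toMonoidHom)
        (conj_equiv (R2 j) y (hR2 j))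
      show phi (((R2 j).map (MulAut.conj y).toMonoidHom).comap ι2) = _
      rw [h]
      ring) hp2
  rw [hP, h2] at h1
  -- the two formulas for `K`
  have e1 : phi ((⊤ : Subgroup Q1).comap ι1) = (ι1.range.index : ℤ) * 4 := by
    have h := phi_cox hC1 hD2 ι1 hK hι1 hi1 6 (⊤ : Subgroup Q1) (by
      obtain ⟨e⟩ := hQ1
      exact ⟨Subgroup.topEquiv.trans e⟩)
    rw [h, Subgroup.relIndex_top_right]
    norm_num
  have e2 : phi ((⊤ : Subgroup Q2).comap ι2) =
      2 * ((ι2.range.index : ℤ) * ((∑ j, (s j : ℤ)) - 1)) := by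
    have h := phi_free hC1 hD1 ι2 hι2 hi2 (∑ j, s j) (⊤ : Subgroup Q2) (by
      obtain ⟨e⟩ := hQ2
      exact ⟨Subgroup.topEquiv.trans e⟩)
    rw [h, Subgroup.relIndex_top_right]
    push_cast
    rfl
  have e3 : (⊤ : Subgroup Q1).comap ι1 = (⊤ : Subgroup Q2).comap ι2 := by
    rw [Subgroup.comap_top, Subgroup.comap_top]
  rw [e3, e2] at e1
  have h3 : (∑ j : J2, 2 * ((s j : ℤ) - 1)) = 2 * ((∑ j, (s j : ℤ)) - Fintype.card J2) := by
    rw [← Finset.mul_sum, Finset.sum_sub_distrib]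
    simp
  have h4 : (∑ _j : J1, (1 : ℤ)) = 2 := by
    simp [hJ1]
  rw [h3, h4] at h1
  have h5 : 2 * (Fintype.card J2 : ℤ) ≤ ∑ j, (s j : ℤ) := by
    calc 2 * (Fintype.card J2 : ℤ) = ∑ _j : J2, (2 : ℤ) := by
          rw [Finset.sum_const, Finset.card_univ]
          simp
          ring
      _ ≤ ∑ j, (s j : ℤ) := Finset.sum_le_sum fun j _ => by exact_mod_cast hs j
  have hk : (0 : ℤ) < ι2.range.index := by
    have := Nat.pos_of_ne_zero hi2
    exact_mod_cast this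
  have h6 : 2 * ((ι2.range.index : ℤ) * ((∑ j, (s j : ℤ)) + 1 - 2 * Fintype.card J2)) = 0 := by
    linear_combination 2 * h1 - e1
  rcases mul_eq_zero.1 ((mul_eq_zero.1 h6).resolve_left two_ne_zero) with h7 | h7
  · exact hk.ne' h7
  · linarith

end Pool.Agent.H921.QC
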